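import Pool.Agent.MVD.Stmts

/-!
# Squad MVD, row COR: corollary of N2 for `m = 1`
-/

namespace Pool.Agent.MVD.H25

open Pool.Agent.Helper14_MV Pool.Agent.Helper2_MV

theorem RR.tr {β : FIC} {a b c : List ℕ} (h : RR β a b) (h' : RR β b c) : RR β a c :=
  β.trans h h'

theorem perm3 {L : List ℕ} (h : L.Perm [0, 1, 0]) :
    L = [0, 1, 0] ∨ L = [0, 0, 1] ∨ L = [1, 0, 0] := by
  obtain ⟨a, b, c, rfl⟩ := List.length_eq_three.1 h.length_eq
  have hm : ∀ d ∈ [a, b, c], d = 0 ∨ d = 1 := by
    intro d hd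
    have h1 := h.mem_iff.1 hd
    simp at h1
    tauto
  have ha := hm a (by simp)
  have hb := hm b (by simp)
  have hc := hm c (by simp)
  rcases ha with rfl | rfl <;> rcases hb with rfl | rfl <;> rcases hc with rfl | rfl <;>
    first
      | (exfalso; revert h; decide)
      | simp

theorem perm1 {D : List ℕ} (h : D.Perm (List.range 1)) : D = [0] := by
  have h1 : List.range 1 = [0] := rfl
  rw [h1] at h
  exact List.perm_singleton.1 h

/-- the form of `w'` in the second alternative -/
theorem alt2 {β : FIC} (H2 : Iso2 β) {W w' T A C : List ℕ}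
    (hW : W.filter (fun c => decide (c = 0)) = [0, 0]) (h : RR β W w')
    (hT : w'.filter (fun c => decide (c ≠ 0)) = T) (hA : w' = A ++ 0 :: 0 :: C) :
    A ++ C = T := by
  have h1 := RR.filter (fun c => decide (c = 0)) h
  rw [hW] at h1
  have h2 := H2 _ h1
  rw [hA, List.filter_append] at h2
  have h3 : ((0 :: 0 :: C).filter (fun c => decide (c = 0))) =
      0 :: 0 :: C.filter (fun c => decide (c = 0)) := by simp
  rw [h3] at h2
  have h4 := congrArg List.length h2
  simp only [List.length_append, List.length_cons, List.length_nil] at h4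
  have h5 : A.filter (fun c => decide (c = 0)) = [] := List.length_eq_zero_iff.1 (by omega)
  have h6 : C.filter (fun c => decide (c = 0)) = [] := List.length_eq_zero_iff.1 (by omega)
  rw [List.filter_eq_nil_iff] at h5 h6
  rw [← hT, hA, List.filter_append]
  have h7 : ((0 :: 0 :: C).filter (fun c => decide (c ≠ 0))) =
      C.filter (fun c => decide (c ≠ 0)) := by simp
  rw [h7, List.filter_eq_self.2, List.filter_eq_self.2]
  · intro a ha
    have := h6 a ha
    simpa using this
  · intro a ha
    have := h5 a ha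
    simpa using this

def ga (c : ℕ) : List ℕ := if c = 0 then [3] else if c = 1 then [0] else if c = 2 then [2] else []

def gb (c : ℕ) : List ℕ := if c = 0 then [3] else if c = 1 then [0] else if c = 5 then [2] else []

theorem a1_of {β : FIC} (h : RR β [0, 1, 0, 2, 1, 5] [1, 0, 0, 2, 1, 5]) : A1 β :=
  RR.sub ga h

theorem a2_of {β : FIC} (h : RR β [0, 1, 0, 2, 1, 5] [0, 0, 1, 2, 1, 5]) : A2 β :=
  RR.sub ga h

theorem b2_of {β : FIC} (h : RR β [1, 5, 0, 1, 0, 2] [1, 5, 1, 0, 0, 2]) : B2 β :=
  RR.sub gb h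

theorem b3_of {β : FIC} (h : RR β [1, 5, 0, 1, 0, 2] [1, 5, 0, 0, 1, 2]) : B3 β :=
  RR.sub gb h

/-- **COR.** -/
theorem cor (pn2 : Pn2Stmt) (shw : ShwStmt) (cty : CtyStmt) : CorStmt := by
  intro β hM H2 H3
  have hsq := (cty β).2.2.2.2
  constructor
  · have hp : (([] : List ℕ) ++ [0]).Perm (List.range 1) := List.Perm.refl _
    obtain ⟨w', hw, hb⟩ := pn2 β hM H2 H3 [] [0] 1 le_rfl hp
    have hb' : ¬ Btw 0 1 w' := by
      intro h
      apply hb
      intro e he
      obtain rfl : e = 0 := by omega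
      exact h
    have hW : RR β [0, 1, 0, 2, 1, 5] w' := hw
    rcases shw β H2 H3 [] [0] 1 hp w' hw with ⟨L', hL, rfl⟩ | ⟨hS, D', hD, hf, A, C, hAC⟩
    · have hL' : L'.Perm [0, 1, 0] := hL
      rcases perm3 hL' with rfl | rfl | rfl
      · exact absurd ⟨[], [1], [2, 1, 5], rfl, by simp⟩ hb'
      · right
        exact a2_of hW
      · left
        exact a1_of hW
    · rcases hAC with hA | ⟨e, he, hA⟩
      · obtain rfl := perm1 hD
        have hT : A ++ C = [1, 2, 1, 5] := alt2 H2 rfl hW hf hA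
        have h1 := hsq hS [] A C 0
        have h2 : RR β (0 :: 0 :: (A ++ C)) w' := by rw [hA]; exact h1
        rw [hT] at h2
        right
        exact a2_of (RR.tr hW (RR.symm h2))
      · obtain rfl : e = 0 := by omega
        exact absurd ⟨A, [1], C, hA, by simp⟩ hb'
  · have hp : ([0] ++ ([] : List ℕ)).Perm (List.range 1) := List.Perm.refl _
    obtain ⟨w', hw, hb⟩ := pn2 β hM H2 H3 [0] [] 1 le_rfl hp
    have hb' : ¬ Btw 0 1 w' := by
      intro h
      apply hb
      intro e he
      obtain rfl : e = 0 := by omega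
      exact h
    have hW : RR β [1, 5, 0, 1, 0, 2] w' := hw
    rcases shw β H2 H3 [0] [] 1 hp w' hw with ⟨L', hL, rfl⟩ | ⟨hS, D', hD, hf, A, C, hAC⟩
    · have hL' : L'.Perm [0, 1, 0] := hL
      rcases perm3 hL' with rfl | rfl | rfl
      · exact absurd ⟨[1, 5], [1], [2], rfl, by simp⟩ hb'
      · right
        exact b3_of hW
      · left
        exact b2_of hW
    · rcases hAC with hA | ⟨e, he, hA⟩
      · obtain rfl := perm1 hD
        have hT : A ++ C = [1, 5, 1, 2] := alt2 H2 rfl hW hf hA
        have h1 := hsq hS [] A C 0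
        have h2 : RR β (0 :: 0 :: (A ++ C)) w' := by rw [hA]; exact h1
        rw [hT] at h2
        have h3 : RR β [0, 0, 1, 5, 1, 2] [1, 5, 0, 0, 1, 2] := hsq hS [] [1, 5] [1, 2] 0
        right
        exact b3_of (RR.tr (RR.tr hW (RR.symm h2)) h3)
      · obtain rfl : e = 0 := by omega
        exact absurd ⟨A, [1], C, hA, by simp⟩ hb'

end Pool.Agent.MVD.H25
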